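import Pool.Agent.V11231.MD.Path
import Pool.Agent.H656R2.AK.AKIn
import Pool.Agent.NPC.Dec

/-!
# A polynomial-time algorithm for the misère domination game on paths and cycles
-/

set_option autoImplicit false

namespace Pool.Agent.V11231.MD

open Pool.Agent.NPC Pool.Agent.H656R2.AK

/-- matrices -/
abbrev Mat : Type := List (List Bool)

theorem ent_adjMatrix {n : ℕ} (G : SimpleGraph (Fin n)) (i j : Fin n) :
    ent (adjMatrix G) i j = true ↔ G.Adj i j := by
  simp [ent, adjMatrix, List.getD_eq_getElem?_getD]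

/-- every vertex has two neighbours -/
def two (M : Mat) : Bool :=
  (List.range M.length).all fun i => (List.range M.length).any fun j =>
    (List.range M.length).any fun k => !decide (j = k) && (ent M i j && ent M i k)

theorem two_iff {n : ℕ} (G : SimpleGraph (Fin n)) : two (adjMatrix G) = true ↔
    ∀ i : Fin n, ∃ j k : Fin n, j ≠ k ∧ G.Adj i j ∧ G.Adj i k := by
  have hlen : (adjMatrix G).length = n := by simp [adjMatrix]
  unfold two
  rw [hlen]
  simp only [List.all_eq_true, List.mem_range, List.any_eq_true, Bool.and_eq_true,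
    Bool.not_eq_true', decide_eq_false_iff_not]
  constructor
  · intro h i
    obtain ⟨j, hj, k, hk, h1, h2, h3⟩ := h i.val i.2
    refine ⟨⟨j, hj⟩, ⟨k, hk⟩, ?_, (ent_adjMatrix G i ⟨j, hj⟩).1 h2,
      (ent_adjMatrix G i ⟨k, hk⟩).1 h3⟩
    simpa [Fin.ext_iff] using h1
  · intro h i hi
    obtain ⟨j, k, h1, h2, h3⟩ := h ⟨i, hi⟩
    refine ⟨j.val, j.2, k.val, k.2, ?_, (ent_adjMatrix G ⟨i, hi⟩ j).2 h2,
      (ent_adjMatrix G ⟨i, hi⟩ k).2 h3⟩
    simpa [Fin.ext_iff] using h1

theorem two_iso {n : ℕ} {G H : SimpleGraph (Fin n)} (φ : G ≃g H)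
    (h : ∀ i : Fin n, ∃ j k : Fin n, j ≠ k ∧ G.Adj i j ∧ G.Adj i k) :
    ∀ i : Fin n, ∃ j k : Fin n, j ≠ k ∧ H.Adj i j ∧ H.Adj i k := by
  intro i
  obtain ⟨i, rfl⟩ := φ.surjective i
  obtain ⟨j, k, h1, h2, h3⟩ := h i
  exact ⟨φ j, φ k, fun h => h1 (φ.injective h), φ.map_adj_iff.2 h2, φ.map_adj_iff.2 h3⟩

theorem two_cycle {n : ℕ} (hn : 3 ≤ n) (i : Fin n) : ∃ j k : Fin n, j ≠ k ∧
    (SimpleGraph.cycleGraph n).Adj i j ∧ (SimpleGraph.cycleGraph n).Adj i k := by
  have hi := i.2
  simp only [cycle_adj hn]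
  by_cases h0 : i.val = 0
  · refine ⟨⟨1, by omega⟩, ⟨n - 1, by omega⟩, ?_, ?_, ?_⟩
    · simp only [ne_eq, Fin.mk.injEq]; omega
    · simp only; omega
    · exact Or.inr (Or.inr (Or.inl ⟨h0, rfl⟩))
  · by_cases h1 : i.val = n - 1
    · refine ⟨⟨0, by omega⟩, ⟨n - 2, by omega⟩, ?_, ?_, ?_⟩
      · simp only [ne_eq, Fin.mk.injEq]; omega
      · simp only [and_true, true_and]; omega
      · simp only [and_true, true_and]; omega
    · refine ⟨⟨i.val - 1, by omega⟩, ⟨i.val + 1, by omega⟩, ?_, ?_, ?_⟩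
      · simp only [ne_eq, Fin.mk.injEq]; omega
      · simp only [and_true, true_and]; omega
      · exact Or.inl rfl

theorem not_two_path {n : ℕ} (hn : 0 < n) : ¬ ∀ i : Fin n, ∃ j k : Fin n, j ≠ k ∧
    (SimpleGraph.pathGraph n).Adj i j ∧ (SimpleGraph.pathGraph n).Adj i k := by
  intro h
  obtain ⟨j, k, h1, h2, h3⟩ := h ⟨0, hn⟩
  rw [SimpleGraph.pathGraph_adj] at h2 h3
  simp only at h2 h3
  apply h1
  rw [Fin.ext_iff]
  omega

/-- The number `n` is such that Alice wins on the cycle. -/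
def cyc (n : ℕ) : Bool :=
  decide (n = 4) || (decide (n = 8) || (decide (13 ≤ n) && decide (n % 4 = 1)))

/-- The number `n` is such that Alice wins on the path. -/
def pth (n : ℕ) : Bool :=
  !(decide (n = 1) || (decide (n = 2) || (decide (n = 5) || (decide (n = 6) ||
    (decide (10 ≤ n) && decide (n % 4 = 2))))))

/-- the algorithm -/
def alg (M : Mat) : Bool :=
  bif two M && decide (3 ≤ M.length) then cyc M.length else pth M.length

theorem alg_iff {n : ℕ} {G : SimpleGraph (Fin n)}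
    (h : Nonempty (G ≃g SimpleGraph.pathGraph n) ∨
      (3 ≤ n ∧ Nonempty (G ≃g SimpleGraph.cycleGraph n))) :
    AliceWins G ↔ alg (adjMatrix G) = true := by
  have hlen : (adjMatrix G).length = n := by simp [adjMatrix]
  unfold alg
  rw [hlen]
  rcases h with ⟨⟨φ⟩⟩ | ⟨hn, ⟨φ⟩⟩
  · rw [aliceWins_iso φ, aliceWins_path]
    have h1 : (two (adjMatrix G) && decide (3 ≤ n)) = false := by
      rw [Bool.and_eq_false_iff]
      by_cases h0 : 0 < n
      · left
        rw [Bool.eq_false_iff]
        intro h2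
        exact not_two_path h0 (two_iso φ ((two_iff G).1 h2))
      · right
        simp only [decide_eq_false_iff_not]
        omega
    rw [h1, cond_false]
    unfold pth
    simp only [Bool.not_eq_true', Bool.or_eq_false_iff, Bool.and_eq_false_iff,
      decide_eq_false_iff_not]
    omega
  · rw [aliceWins_iso φ, aliceWins_cycle hn]
    have h1 : (two (adjMatrix G) && decide (3 ≤ n)) = true := by
      rw [Bool.and_eq_true]
      exact ⟨(two_iff G).2 (two_iso φ.symm (two_cycle hn)), by simpa using hn⟩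
    rw [h1, cond_true]
    unfold cyc
    simp only [Bool.or_eq_true, Bool.and_eq_true, decide_eq_true_eq]

section

theorem poly_decide_mod {c d : ℕ} {α : Type} [TEnc α] {f : α → ℕ} (hf : NPC.Poly f) :
    NPC.Poly (fun a => decide (f a % c = d)) :=
  NPC.Poly.decide_eq (NPC.Poly.mod hf (NPC.Poly.const c)) (NPC.Poly.const d)

theorem poly_two : NPC.Poly two := by
  unfold two
  have h1 : NPC.Poly (fun p : ((Mat × ℕ) × ℕ) × ℕ => ent p.1.1.1 p.1.1.2 p.1.2) :=
    poly_ent (by fun_prop) (by fun_prop) (by fun_prop)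
  have h2 : NPC.Poly (fun p : ((Mat × ℕ) × ℕ) × ℕ => ent p.1.1.1 p.1.1.2 p.2) :=
    poly_ent (by fun_prop) (by fun_prop) (by fun_prop)
  refine NPC.Poly.all (l := fun M : Mat => List.range M.length)
    (p := fun M i => (List.range M.length).any fun j =>
      (List.range M.length).any fun k => !decide (j = k) && (ent M i j && ent M i k))
    (UPoly.length NPC.Poly.id).range ?_
  refine NPC.Poly.any (l := fun p : Mat × ℕ => List.range p.1.length)
    (p := fun p j => (List.range p.1.length).any fun k =>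
      !decide (j = k) && (ent p.1 p.2 j && ent p.1 p.2 k))
    (UPoly.length (NPC.Poly.fst NPC.Poly.id)).range ?_
  refine NPC.Poly.any (l := fun p : (Mat × ℕ) × ℕ => List.range p.1.1.length)
    (p := fun p k => !decide (p.2 = k) && (ent p.1.1 p.1.2 p.2 && ent p.1.1 p.1.2 k))
    (UPoly.length (NPC.Poly.fst (NPC.Poly.fst NPC.Poly.id))).range ?_
  exact NPC.Poly.and (by fun_prop) (NPC.Poly.and h1 h2)

theorem poly_cyc {α : Type} [TEnc α] {f : α → ℕ} (hf : NPC.Poly f) :
    NPC.Poly (fun a => cyc (f a)) := by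
  unfold cyc
  have h1 : NPC.Poly (fun a => decide (f a % 4 = 1)) := poly_decide_mod hf
  fun_prop

theorem poly_pth {α : Type} [TEnc α] {f : α → ℕ} (hf : NPC.Poly f) :
    NPC.Poly (fun a => pth (f a)) := by
  unfold pth
  have h1 : NPC.Poly (fun a => decide (f a % 4 = 2)) := poly_decide_mod hf
  fun_prop

theorem poly_alg : NPC.Poly alg := by
  unfold alg
  have h0 := poly_two
  have h1 : NPC.Poly (fun M : Mat => cyc M.length) := poly_cyc (by fun_prop)
  have h2 : NPC.Poly (fun M : Mat => pth M.length) := poly_pth (by fun_prop)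
  fun_prop

end

end Pool.Agent.V11231.MD
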