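import Pool.Agent.V11231.MD.Heap

/-!
# The misère domination game
-/

set_option autoImplicit false

namespace Pool.Agent.V11231.MD

/-- Misère play, where `mv a b` says that there is a move from the position `a` to the position `b`:
`MisereWins mv a` says that the player to move from the position `a` wins. He wins if he has no
move, or if he has a move to a position `b` in which the opponent has a move and such that he wins
after every move of the opponent. -/
inductive MisereWins {α : Type} (mv : α → α → Prop) : α → Prop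
  | stuck (a : α) : (∀ b, ¬ mv a b) → MisereWins mv a
  | move (a b : α) : mv a b → (∃ x, mv b x) → (∀ x, mv b x → MisereWins mv x) → MisereWins mv a

/-- The vertex `v` is a legal move, if the vertices in `C` have been chosen: it dominates a vertex
which is not dominated by them. -/
def Legal {V : Type} (G : SimpleGraph V) (C : Set V) (v : V) : Prop :=
  ∃ w, (w = v ∨ G.Adj v w) ∧ ∀ x ∈ C, ¬ (w = x ∨ G.Adj x w)

/-- The moves of the domination game; the positions are the sets of the chosen vertices. -/
def DomMove {V : Type} (G : SimpleGraph V) (C C' : Set V) : Prop :=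
  ∃ v, Legal G C v ∧ C' = insert v C

/-- The first player, Alice, wins the misère domination game. -/
def AliceWins {V : Type} (G : SimpleGraph V) : Prop := MisereWins (DomMove G) ∅

/-! ### Generalities -/

section

variable {α β : Type} {mv : α → α → Prop} {mv' : β → β → Prop}

/-- The player to move loses. -/
def Loses (mv : α → α → Prop) (a : α) : Prop := (∃ b, mv a b) ∧ ∀ b, mv a b → MisereWins mv b

theorem MisereWins.not_loses {a : α} (h : MisereWins mv a) : ¬ Loses mv a := by
  induction h with
  | stuck a h => rintro ⟨⟨b, hb⟩, _⟩; exact h b hb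
  | move a b hab hb h ih =>
    rintro ⟨_, h2⟩
    have hwb := h2 b hab
    cases hwb with
    | stuck _ h3 =>
      obtain ⟨x, hx⟩ := hb
      exact h3 x hx
    | move _ c hbc hc h3 => exact ih c hbc ⟨hc, h3⟩

theorem MisereWins.of_loses {a b : α} (h : mv a b) (hb : Loses mv b) : MisereWins mv a :=
  MisereWins.move a b h hb.1 hb.2

/-- bisimulations -/
theorem misereWins_of_bisim (R : α → β → Prop)
    (h1 : ∀ a b a', R a b → mv a a' → ∃ b', mv' b b' ∧ R a' b')
    (h2 : ∀ a b b', R a b → mv' b b' → ∃ a', mv a a' ∧ R a' b') {a : α} {b : β} (hR : R a b)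
    (h : MisereWins mv a) : MisereWins mv' b := by
  induction h generalizing b with
  | stuck a h =>
    refine MisereWins.stuck b fun b' hb' => ?_
    obtain ⟨a', ha', _⟩ := h2 a b b' hR hb'
    exact h a' ha'
  | move a a1 ha hx h ih =>
    obtain ⟨b1, hb1, hR1⟩ := h1 a b a1 hR ha
    obtain ⟨x, hx⟩ := hx
    obtain ⟨y, hy, _⟩ := h1 a1 b1 x hR1 hx
    refine MisereWins.move b b1 hb1 ⟨y, hy⟩ fun y' hy' => ?_
    obtain ⟨x', hx', hR'⟩ := h2 a1 b1 y' hR1 hy'
    exact ih x' hx' hR'

end

theorem image_legal {V W : Type} {G : SimpleGraph V} {H : SimpleGraph W} (φ : G ≃g H) {C : Set V}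
    {v : V} : Legal H (φ '' C) (φ v) ↔ Legal G C v := by
  unfold Legal
  constructor
  · rintro ⟨w, h1, h2⟩
    obtain ⟨w, rfl⟩ := φ.surjective w
    refine ⟨w, ?_, fun x hx => ?_⟩
    · rcases h1 with h1 | h1
      · exact Or.inl (φ.injective h1)
      · exact Or.inr ((φ.map_adj_iff).1 h1)
    · rintro (h3 | h3)
      · exact h2 (φ x) (Set.mem_image_of_mem _ hx) (Or.inl (by rw [h3]))
      · exact h2 (φ x) (Set.mem_image_of_mem _ hx) (Or.inr ((φ.map_adj_iff).2 h3))
  · rintro ⟨w, h1, h2⟩
    refine ⟨φ w, ?_, ?_⟩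
    · rcases h1 with h1 | h1
      · exact Or.inl (by rw [h1])
      · exact Or.inr ((φ.map_adj_iff).2 h1)
    · rintro _ ⟨x, hx, rfl⟩ (h3 | h3)
      · exact h2 x hx (Or.inl (φ.injective h3))
      · exact h2 x hx (Or.inr ((φ.map_adj_iff).1 h3))

theorem wins_image {V W : Type} {G : SimpleGraph V} {H : SimpleGraph W} (φ : G ≃g H) {C : Set V}
    (h : MisereWins (DomMove G) C) : MisereWins (DomMove H) (φ '' C) := by
  refine misereWins_of_bisim (mv := DomMove G) (mv' := DomMove H) (fun C D => D = φ '' C) ?_ ?_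
    rfl h
  · rintro C D C' rfl ⟨v, hv, rfl⟩
    exact ⟨_, ⟨φ v, (image_legal φ).2 hv, rfl⟩, Set.image_insert_eq.symm⟩
  · rintro C D D' rfl ⟨v, hv, rfl⟩
    obtain ⟨v, rfl⟩ := φ.surjective v
    exact ⟨_, ⟨v, (image_legal φ).1 hv, rfl⟩, Set.image_insert_eq.symm⟩

theorem aliceWins_iso {V W : Type} {G : SimpleGraph V} {H : SimpleGraph W} (φ : G ≃g H) :
    AliceWins G ↔ AliceWins H := by
  unfold AliceWins
  constructor
  · intro h
    have := wins_image φ h
    rwa [Set.image_empty] at this
  · intro h
    have := wins_image φ.symm h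
    rwa [Set.image_empty] at this

/-! ### Zero heaps and two-heap options -/

theorem PP_zero_cons {G : Multiset ℕ} : PP (0 ::ₘ G) ↔ PP G := by
  have hu0 : u 0 = 0 := by decide
  have hS : S (0 ::ₘ G) = S G := by simp [hu0]
  have hA : A (0 ::ₘ G) = A G := by simp
  have hB : B (0 ::ₘ G) = B G := by simp
  have hbal : Bal (0 ::ₘ G) ↔ Bal G := by
    unfold Bal
    rw [hS]
    simp [hu0]
  have hQ4 : Q4 (0 ::ₘ G) ↔ Q4 G := by
    unfold Q4
    rw [hS]
    simp
  have hQ6 : Q6 (0 ::ₘ G) ↔ Q6 G := by
    unfold Q6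
    rw [hS]
    simp
  unfold PP
  rw [hS, hA, hB, hbal, hQ4, hQ6]

end Pool.Agent.V11231.MD
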