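import Mathlib

/-!
# Misère play of the octal game 0.337
-/

set_option autoImplicit false

namespace Pool.Agent.V11231.MD

/-- Options: a heap is decreased by one or two, or it is decreased by three and split. -/
def Opt (G G' : Multiset ℕ) : Prop :=
  ∃ x R, G = x ::ₘ R ∧ ((∃ y, x = y + 1 ∧ G' = y ::ₘ R) ∨ (∃ y, x = y + 2 ∧ G' = y ::ₘ R) ∨
    ∃ a b, x = a + b + 3 ∧ G' = a ::ₘ b ::ₘ R)

/-- the weight of a heap -/
def u (x : ℕ) : ℕ := if x < 8 then 2 * (x / 2 % 2) else 2 * (x / 2) - 4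

/-- the total weight -/
def S (G : Multiset ℕ) : ℕ := (G.map u).sum

/-- the first bit -/
def A (G : Multiset ℕ) : ℕ := G.sum

/-- the second bit -/
def B (G : Multiset ℕ) : ℕ := (G.map fun x => x / 2).sum

@[simp] theorem S_cons (x : ℕ) (R : Multiset ℕ) : S (x ::ₘ R) = u x + S R := by simp [S]
@[simp] theorem A_cons (x : ℕ) (R : Multiset ℕ) : A (x ::ₘ R) = x + A R := by simp [A]
@[simp] theorem B_cons (x : ℕ) (R : Multiset ℕ) : B (x ::ₘ R) = x / 2 + B R := by simp [B]

theorem u_mod (x : ℕ) : u x % 4 = 2 * (x / 2 % 2) := by unfold u; split_ifs <;> omega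

theorem S_mod (G : Multiset ℕ) : S G % 4 = 2 * (B G % 2) := by
  induction G using Multiset.induction_on with
  | empty => simp [S, B]
  | cons x R ih =>
    have := u_mod x
    simp only [S_cons, B_cons]
    omega

theorem le_S {x : ℕ} {R : Multiset ℕ} (h : x ∈ R) : u x ≤ S R := by
  obtain ⟨R', rfl⟩ := Multiset.exists_cons_of_mem h
  simp

theorem add_le_S {x y : ℕ} {R : Multiset ℕ} (hx : x ∈ R) (hy : y ∈ R) (hxy : x ≠ y) :
    u x + u y ≤ S R := by
  obtain ⟨R', rfl⟩ := Multiset.exists_cons_of_mem hx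
  have : y ∈ R' := by
    rcases Multiset.mem_cons.1 hy with h | h
    · exact absurd h.symm hxy
    · exact h
  have := le_S this
  simp only [S_cons]
  omega

/-- no heap dominates -/
def Bal (G : Multiset ℕ) : Prop := ∀ y ∈ G, 2 * u y ≤ S G

/-- an odd heap dominates slightly -/
def Q4 (G : Multiset ℕ) : Prop := ∃ y ∈ G, y % 2 = 1 ∧ 8 ≤ y ∧ 2 * u y = S G + 4 ∧ u y < S G

/-- a heap dominates strongly -/
def Q6 (G : Multiset ℕ) : Prop := ∃ y ∈ G, 8 ≤ y ∧ S G + 6 + 4 * (y % 2) ≤ 2 * u y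

/-- The positions in which the player who has just moved wins. -/
def PP (G : Multiset ℕ) : Prop :=
  (S G = 0 ∧ A G % 2 = 1 ∧ B G % 2 = 0) ∨
  (0 < S G ∧ A G % 2 = 0 ∧ B G % 2 = 0 ∧ Bal G) ∨
  (A G % 2 = 0 ∧ B G % 2 = 0 ∧ Q4 G) ∨
  (A G % 2 = 0 ∧ B G % 2 = 1 ∧ Q6 G)

theorem u_cases (x : ℕ) : (x < 8 ∧ u x = 2 * (x / 2 % 2)) ∨ (8 ≤ x ∧ u x = 2 * (x / 2) - 4) := by
  unfold u; split_ifs <;> omega

/-- two dominating heaps are equal -/
theorem dom_unique {G : Multiset ℕ} {y z : ℕ} (hy : y ∈ G) (hz : z ∈ G) (h1 : S G < 2 * u y)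
    (h2 : S G < 2 * u z) : y = z := by
  by_contra h
  have := add_le_S hy hz h
  omega

theorem PP_pos {G : Multiset ℕ} (h : PP G) : (S G = 0 ∧ A G % 2 = 1 ∧ B G % 2 = 0) ∨
    (0 < S G ∧ A G % 2 = 0) := by
  rcases h with h | ⟨a1, a2, a3, a4⟩ | ⟨a2, a3, y, hy, a4⟩ | ⟨a2, a3, y, hy, a4⟩
  · exact Or.inl h
  · exact Or.inr ⟨a1, a2⟩
  · exact Or.inr ⟨by omega, a2⟩
  · have := le_S hy
    have := u_cases y
    exact Or.inr ⟨by omega, a2⟩

/-- The move changes the parity and removes all the weight. -/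
theorem not_PP_of_zero {x : ℕ} {R : Multiset ℕ} (h : PP (x ::ₘ R)) (hR : S R = 0)
    (hS : 0 < S (x ::ₘ R)) : 10 ≤ x ∧ B (x ::ₘ R) % 2 = 1 ∧ 6 + 4 * (x % 2) ≤ u x := by
  have hux := u_cases x
  rcases h with ⟨a1, a2, a3⟩ | ⟨a1, a2, a3, a4⟩ | ⟨a2, a3, y, hy, a4⟩ | ⟨a2, a3, y, hy, a4⟩
  · omega
  · have := a4 x (by simp)
    simp only [S_cons] at *
    omega
  · rcases Multiset.mem_cons.1 hy with rfl | hy
    · simp only [S_cons] at *
      omega
    · have := le_S hy
      simp only [S_cons] at *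
      omega
  · rcases Multiset.mem_cons.1 hy with rfl | hy
    · simp only [S_cons] at *
      omega
    · have := le_S hy
      simp only [S_cons] at *
      omega

theorem PP_opt_one {y : ℕ} {R : Multiset ℕ} (h : PP ((y + 1) ::ₘ R)) : ¬ PP (y ::ₘ R) := by
  intro h'
  have hm := S_mod R
  have hux := u_cases (y + 1)
  have huy := u_cases y
  have k1 := PP_pos h
  have k2 := PP_pos h'
  rcases k1 with ⟨a1, a2, a3⟩ | ⟨a1, a2⟩
  · rcases k2 with ⟨b1, b2, b3⟩ | ⟨b1, b2⟩
    · simp only [A_cons] at *; omega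
    · simp only [S_cons, A_cons, B_cons] at a1 a2 a3 b1 b2
      rcases h' with ⟨c1, c2, c3⟩ | ⟨c1, c2, c3, c4⟩ | ⟨c2, c3, z, hz, c4⟩ | ⟨c2, c3, z, hz, c4⟩
      · simp only [S_cons, A_cons, B_cons] at c1 c2 c3; omega
      · simp only [S_cons, A_cons, B_cons] at c1 c2 c3; omega
      · have := le_S hz
        simp only [S_cons, A_cons, B_cons] at c2 c3 c4 this; omega
      · have := le_S hz
        have := u_cases z
        simp only [S_cons, A_cons, B_cons] at *; omega
  · rcases k2 with ⟨b1, b2, b3⟩ | ⟨b1, b2⟩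
    · simp only [S_cons, A_cons, B_cons] at b1 b2 b3
      have := not_PP_of_zero h (by omega) a1
      omega
    · simp only [A_cons] at *; omega

theorem PP_opt_three {a b : ℕ} {R : Multiset ℕ} (h : PP ((a + b + 3) ::ₘ R)) :
    ¬ PP (a ::ₘ b ::ₘ R) := by
  intro h'
  have hm := S_mod R
  have hux := u_cases (a + b + 3)
  have hua := u_cases a
  have hub := u_cases b
  have k1 := PP_pos h
  have k2 := PP_pos h'
  rcases k1 with ⟨a1, a2, a3⟩ | ⟨a1, a2⟩
  · rcases k2 with ⟨b1, b2, b3⟩ | ⟨b1, b2⟩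
    · simp only [A_cons] at *; omega
    · simp only [S_cons, A_cons, B_cons] at a1 a2 a3 b1 b2
      rcases h' with ⟨c1, c2, c3⟩ | ⟨c1, c2, c3, c4⟩ | ⟨c2, c3, z, hz, c4⟩ | ⟨c2, c3, z, hz, c4⟩
      · simp only [S_cons, A_cons, B_cons] at c1 c2 c3; omega
      · simp only [S_cons, A_cons, B_cons] at c1 c2 c3; omega
      · have := le_S hz
        simp only [S_cons, A_cons, B_cons] at c2 c3 c4 this; omega
      · have := le_S hz
        have := u_cases z
        simp only [S_cons, A_cons, B_cons] at *; omega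
  · rcases k2 with ⟨b1, b2, b3⟩ | ⟨b1, b2⟩
    · simp only [S_cons, A_cons, B_cons] at b1 b2 b3
      have := not_PP_of_zero h (by omega) a1
      simp only [S_cons, A_cons, B_cons] at this
      omega
    · simp only [A_cons] at *; omega

theorem PP_opt_two {x : ℕ} {R : Multiset ℕ} (h : PP ((x + 2) ::ₘ R)) : ¬ PP (x ::ₘ R) := by
  intro h'
  have hm := S_mod R
  have hux := u_cases (x + 2)
  have huy := u_cases x
  rcases h with ⟨a1, a2, a3⟩ | ⟨a1, a2, a3, a4⟩ | ⟨a2, a3, y, hy, a4, a5, a6, a7⟩ |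
    ⟨a2, a3, y, hy, a5, a6⟩
  · rcases h' with ⟨c1, c2, c3⟩ | ⟨c1, c2, c3, c4⟩ | ⟨c2, c3, z, hz, c4⟩ | ⟨c2, c3, z, hz, c4⟩
    · simp only [S_cons, A_cons, B_cons] at *; omega
    · simp only [S_cons, A_cons, B_cons] at a1 a2 a3 c1 c2 c3; omega
    · simp only [S_cons, A_cons, B_cons] at a1 a2 a3 c2 c3; omega
    · simp only [S_cons, A_cons, B_cons] at a1 a2 a3 c2 c3; omega
  · rcases h' with ⟨c1, c2, c3⟩ | ⟨c1, c2, c3, c4⟩ | ⟨c2, c3, z, hz, c4⟩ | ⟨c2, c3, z, hz, c4, c5⟩
    · simp only [S_cons, A_cons, B_cons] at *; omega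
    · simp only [S_cons, A_cons, B_cons] at a1 a2 a3 c1 c2 c3; omega
    · simp only [S_cons, A_cons, B_cons] at a1 a2 a3 c2 c3; omega
    · rcases Multiset.mem_cons.1 hz with rfl | hz
      · have := a4 (z + 2) (by simp)
        simp only [S_cons, A_cons, B_cons] at *
        omega
      · have := a4 z (by simp [hz])
        simp only [S_cons, A_cons, B_cons] at *
        omega
  · rcases h' with ⟨c1, c2, c3⟩ | ⟨c1, c2, c3, c4⟩ | ⟨c2, c3, z, hz, c4⟩ | ⟨c2, c3, z, hz, c4, c5⟩
    · simp only [S_cons, A_cons, B_cons] at *; omega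
    · simp only [S_cons, A_cons, B_cons] at a2 a3 c1 c2 c3; omega
    · simp only [S_cons, A_cons, B_cons] at a2 a3 c2 c3; omega
    · rcases Multiset.mem_cons.1 hz with rfl | hz
      · have := dom_unique (G := (z + 2) ::ₘ R) (y := z + 2) (z := y) (by simp) hy
          (by simp only [S_cons] at *; omega) (by omega)
        subst this
        simp only [S_cons, A_cons, B_cons] at *
        omega
      · have := dom_unique (G := (x + 2) ::ₘ R) (y := z) (z := y) (by simp [hz]) hy
          (by simp only [S_cons] at *; omega) (by omega)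
        subst this
        simp only [S_cons, A_cons, B_cons] at *
        omega
  · rcases h' with ⟨c1, c2, c3⟩ | ⟨c1, c2, c3, c4⟩ | ⟨c2, c3, z, hz, c4, c5, c6, c7⟩ |
      ⟨c2, c3, z, hz, c4, c5⟩
    · simp only [S_cons, A_cons, B_cons] at *; omega
    · rcases Multiset.mem_cons.1 hy with rfl | hy
      · have := c4 x (by simp)
        simp only [S_cons, A_cons, B_cons] at *
        omega
      · have := c4 y (by simp [hy])
        simp only [S_cons, A_cons, B_cons] at *
        omega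
    · rcases Multiset.mem_cons.1 hy with rfl | hy
      · have := dom_unique (G := x ::ₘ R) (y := x) (z := z) (by simp) hz
          (by simp only [S_cons] at *; omega) (by omega)
        subst this
        simp only [S_cons, A_cons, B_cons] at *
        omega
      · have := dom_unique (G := x ::ₘ R) (y := y) (z := z) (by simp [hy]) hz
          (by simp only [S_cons] at *; omega) (by omega)
        subst this
        simp only [S_cons, A_cons, B_cons] at *
        omega
    · simp only [S_cons, A_cons, B_cons] at a2 a3 c2 c3; omega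

theorem PP_opt {G G' : Multiset ℕ} (h : PP G) (ho : Opt G G') : ¬ PP G' := by
  obtain ⟨x, R, rfl, ho⟩ := ho
  rcases ho with ⟨y, rfl, rfl⟩ | ⟨y, rfl, rfl⟩ | ⟨a, b, rfl, rfl⟩
  · exact PP_opt_one h
  · exact PP_opt_two h
  · exact PP_opt_three h

theorem opt1 {y : ℕ} {R : Multiset ℕ} : Opt ((y + 1) ::ₘ R) (y ::ₘ R) :=
  ⟨_, _, rfl, Or.inl ⟨y, rfl, rfl⟩⟩

theorem opt2 {y : ℕ} {R : Multiset ℕ} : Opt ((y + 2) ::ₘ R) (y ::ₘ R) :=
  ⟨_, _, rfl, Or.inr (Or.inl ⟨y, rfl, rfl⟩)⟩

theorem opt3 {a b : ℕ} {R : Multiset ℕ} : Opt ((a + b + 3) ::ₘ R) (a ::ₘ b ::ₘ R) :=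
  ⟨_, _, rfl, Or.inr (Or.inr ⟨a, b, rfl, rfl⟩)⟩

theorem exists_odd {R : Multiset ℕ} (h : A R % 2 = 1) : ∃ x ∈ R, x % 2 = 1 := by
  induction R using Multiset.induction_on with
  | empty => simp [A] at h
  | cons x R ih =>
    by_cases hx : x % 2 = 1
    · exact ⟨x, by simp, hx⟩
    · obtain ⟨y, hy, h1⟩ := ih (by simp only [A_cons] at h; omega)
      exact ⟨y, by simp [hy], h1⟩

theorem exists_two {R : Multiset ℕ} (h : B R % 2 = 1) : ∃ x ∈ R, x / 2 % 2 = 1 := by
  induction R using Multiset.induction_on with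
  | empty => simp [B] at h
  | cons x R ih =>
    by_cases hx : x / 2 % 2 = 1
    · exact ⟨x, by simp, hx⟩
    · obtain ⟨y, hy, h1⟩ := ih (by simp only [B_cons] at h; omega)
      exact ⟨y, by simp [hy], h1⟩

theorem exists_pos {R : Multiset ℕ} (h : 0 < S R) : ∃ x ∈ R, 0 < u x := by
  induction R using Multiset.induction_on with
  | empty => simp [S] at h
  | cons x R ih =>
    by_cases hx : 0 < u x
    · exact ⟨x, by simp, hx⟩
    · obtain ⟨y, hy, h1⟩ := ih (by simp only [S_cons] at h; omega)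
      exact ⟨y, by simp [hy], h1⟩

theorem ex_zero {G : Multiset ℕ} (h : ¬ PP G) (hS : S G = 0) {x : ℕ} (hx : x ∈ G) (hx0 : 0 < x) :
    ∃ G', Opt G G' ∧ PP G' := by
  obtain ⟨R, rfl⟩ := Multiset.exists_cons_of_mem hx
  have hm := S_mod R
  have hux := u_cases x
  have hA : A (x ::ₘ R) % 2 = 0 := by
    by_contra hA
    have hm' := S_mod (x ::ₘ R)
    exact h (Or.inl ⟨hS, by omega, by omega⟩)
  simp only [S_cons, A_cons] at hS hA
  have hx' : x = 1 ∨ x = 4 ∨ x = 5 := by omega
  have hu : u 0 = 0 ∧ u 1 = 0 ∧ u 4 = 0 ∧ u 5 = 0 := by decide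
  rcases hx' with rfl | rfl | rfl
  · refine ⟨_, opt1 (y := 0), Or.inl ⟨?_, ?_, ?_⟩⟩ <;> simp only [S_cons, A_cons, B_cons] <;>
      omega
  · refine ⟨_, opt3 (a := 0) (b := 1), Or.inl ⟨?_, ?_, ?_⟩⟩ <;>
      simp only [S_cons, A_cons, B_cons] <;> omega
  · refine ⟨_, opt1 (y := 4), Or.inl ⟨?_, ?_, ?_⟩⟩ <;> simp only [S_cons, A_cons, B_cons] <;>
      omega

/-- decreasing a heap of a balanced position -/
theorem bal_dec {x y : ℕ} {R : Multiset ℕ} (h : Bal (x ::ₘ R)) (h1 : u y ≤ u x)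
    (h2 : u x ≤ u y + 2) (hS : S (y ::ₘ R) % 4 = 0) : Bal (y ::ₘ R) := by
  have hx := h x (by simp)
  intro z hz
  rcases Multiset.mem_cons.1 hz with rfl | hz
  · simp only [S_cons] at *
    omega
  · have h3 := h z (by simp [hz])
    have h4 := u_mod z
    simp only [S_cons] at *
    omega

theorem ex_bal {G : Multiset ℕ} (h : ¬ PP G) (hS : 0 < S G) (hb : Bal G) :
    ∃ G', Opt G G' ∧ PP G' := by
  have hm := S_mod G
  have hS4 : 4 ≤ S G := by
    obtain ⟨x, hx, h1⟩ := exists_pos hS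
    have := hb x hx
    have := u_mod x
    omega
  have hne : ¬ (A G % 2 = 0 ∧ B G % 2 = 0) := fun h1 => h (Or.inr (Or.inl ⟨hS, h1.1, h1.2, hb⟩))
  by_cases hB : B G % 2 = 1
  · obtain ⟨x, hx, hx2⟩ := exists_two hB
    obtain ⟨R, rfl⟩ := Multiset.exists_cons_of_mem hx
    have hux := u_cases x
    have hmR := S_mod R
    by_cases hA : A (x ::ₘ R) % 2 = 0
    · obtain ⟨y, rfl⟩ : ∃ y, x = y + 2 := ⟨x - 2, by omega⟩
      have huy := u_cases y
      refine ⟨_, opt2, Or.inr (Or.inl ⟨?_, ?_, ?_, bal_dec hb (by omega) (by omega) ?_⟩)⟩ <;>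
        simp only [S_cons, A_cons, B_cons] at * <;> omega
    · by_cases hx1 : x % 2 = 0
      · obtain ⟨y, rfl⟩ : ∃ y, x = y + 1 := ⟨x - 1, by omega⟩
        have huy := u_cases y
        refine ⟨_, opt1, Or.inr (Or.inl ⟨?_, ?_, ?_, bal_dec hb (by omega) (by omega) ?_⟩)⟩ <;>
          simp only [S_cons, A_cons, B_cons] at * <;> omega
      · obtain ⟨y, rfl⟩ : ∃ y, x = y + 0 + 3 := ⟨x - 3, by omega⟩
        have huy := u_cases y
        have hu0 : u 0 = 0 := by simp [u]
        have hbal : Bal (y ::ₘ R) := bal_dec hb (by omega) (by omega)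
          (by simp only [S_cons, A_cons, B_cons] at *; omega)
        refine ⟨_, opt3 (a := y) (b := 0), Or.inr (Or.inl ⟨?_, ?_, ?_, ?_⟩)⟩
        · simp only [S_cons, A_cons, B_cons] at *; omega
        · simp only [S_cons, A_cons, B_cons] at *; omega
        · simp only [S_cons, A_cons, B_cons] at *; omega
        · intro z hz
          have hz' : z = 0 ∨ z ∈ y ::ₘ R := by
            simp only [Multiset.mem_cons] at hz ⊢
            tauto
          rcases hz' with rfl | hz
          · rw [hu0]; omega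
          · have := hbal z hz
            simp only [S_cons] at *
            omega
  · have hA : A G % 2 = 1 := by omega
    obtain ⟨x, hx, hx2⟩ := exists_odd hA
    obtain ⟨R, rfl⟩ := Multiset.exists_cons_of_mem hx
    have hux := u_cases x
    have hmR := S_mod R
    obtain ⟨y, rfl⟩ : ∃ y, x = y + 1 := ⟨x - 1, by omega⟩
    have huy := u_cases y
    refine ⟨_, opt1, Or.inr (Or.inl ⟨?_, ?_, ?_, bal_dec hb (by omega) (by omega) ?_⟩)⟩ <;>
      simp only [S_cons, A_cons, B_cons] at * <;> omega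

theorem ex_small {M : ℕ} {R : Multiset ℕ} (hM : M < 8) (hd : S R < u M) :
    ∃ G', Opt (M ::ₘ R) G' ∧ PP G' := by
  have huM := u_cases M
  have hm := S_mod R
  have hM' : M = 2 ∨ M = 3 ∨ M = 6 ∨ M = 7 := by omega
  have hu : u 0 = 0 ∧ u 1 = 0 ∧ u 4 = 0 ∧ u 5 = 0 := by decide
  rcases hM' with rfl | rfl | rfl | rfl
  · by_cases hA : A R % 2 = 0
    · refine ⟨_, opt1 (y := 1), Or.inl ⟨?_, ?_, ?_⟩⟩ <;>
        simp only [S_cons, A_cons, B_cons] at * <;> omega
    · refine ⟨_, opt2 (y := 0), Or.inl ⟨?_, ?_, ?_⟩⟩ <;>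
        simp only [S_cons, A_cons, B_cons] at * <;> omega
  · by_cases hA : A R % 2 = 0
    · refine ⟨_, opt2 (y := 1), Or.inl ⟨?_, ?_, ?_⟩⟩ <;>
        simp only [S_cons, A_cons, B_cons] at * <;> omega
    · refine ⟨_, opt3 (a := 0) (b := 0), Or.inl ⟨?_, ?_, ?_⟩⟩ <;>
        simp only [S_cons, A_cons, B_cons] at * <;> omega
  · by_cases hA : A R % 2 = 0
    · refine ⟨_, opt1 (y := 5), Or.inl ⟨?_, ?_, ?_⟩⟩ <;>
        simp only [S_cons, A_cons, B_cons] at * <;> omega
    · refine ⟨_, opt2 (y := 4), Or.inl ⟨?_, ?_, ?_⟩⟩ <;>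
        simp only [S_cons, A_cons, B_cons] at * <;> omega
  · by_cases hA : A R % 2 = 0
    · refine ⟨_, opt2 (y := 5), Or.inl ⟨?_, ?_, ?_⟩⟩ <;>
        simp only [S_cons, A_cons, B_cons] at * <;> omega
    · refine ⟨_, opt3 (a := 4) (b := 0), Or.inl ⟨?_, ?_, ?_⟩⟩ <;>
        simp only [S_cons, A_cons, B_cons] at * <;> omega

theorem opt_rest {M : ℕ} {R R' : Multiset ℕ} (h : Opt R R') : Opt (M ::ₘ R) (M ::ₘ R') := by
  obtain ⟨x, T, rfl, h⟩ := h
  refine ⟨x, M ::ₘ T, Multiset.cons_swap _ _ _, ?_⟩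
  rcases h with ⟨y, rfl, rfl⟩ | ⟨y, rfl, rfl⟩ | ⟨a, b, rfl, rfl⟩
  · exact Or.inl ⟨y, rfl, Multiset.cons_swap _ _ _⟩
  · exact Or.inr (Or.inl ⟨y, rfl, Multiset.cons_swap _ _ _⟩)
  · refine Or.inr (Or.inr ⟨a, b, rfl, ?_⟩)
    rw [Multiset.cons_swap M a, Multiset.cons_swap M b]

/-- The strongly dominating heap stays. -/
theorem PP_of_dom {M : ℕ} {R : Multiset ℕ} (hM : 8 ≤ M) (hA : A (M ::ₘ R) % 2 = 0)
    (hB : B (M ::ₘ R) % 2 = 1) (h : S R + 6 + 4 * (M % 2) ≤ u M) : PP (M ::ₘ R) := by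
  refine Or.inr (Or.inr (Or.inr ⟨hA, hB, M, by simp, hM, ?_⟩))
  simp only [S_cons]
  omega

/-- a balanced position with a special heap -/
theorem PP_of_bal {M : ℕ} {R : Multiset ℕ} (hA : A (M ::ₘ R) % 2 = 0)
    (hB : B (M ::ₘ R) % 2 = 0) (hR : 0 < S R) (h : u M = S R) : PP (M ::ₘ R) := by
  refine Or.inr (Or.inl ⟨?_, hA, hB, ?_⟩)
  · simp only [S_cons]; omega
  · intro y hy
    rcases Multiset.mem_cons.1 hy with rfl | hy
    · simp only [S_cons]; omega
    · have := le_S hy
      simp only [S_cons]; omega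

/-- the move `x → x - 2` in the rest -/
theorem rest_two {R : Multiset ℕ} (hR : 0 < S R) : ∃ R', Opt R R' ∧ S R' + 2 = S R ∧
    A R' % 2 = A R % 2 ∧ B R' % 2 = (B R + 1) % 2 := by
  obtain ⟨x, hx, h1⟩ := exists_pos hR
  obtain ⟨T, rfl⟩ := Multiset.exists_cons_of_mem hx
  have hux := u_cases x
  obtain ⟨y, rfl⟩ : ∃ y, x = y + 2 := ⟨x - 2, by omega⟩
  have huy := u_cases y
  refine ⟨_, opt2, ?_, ?_, ?_⟩ <;> simp only [S_cons, A_cons, B_cons] <;> omega

/-- the moves `x → x - 1` (even heaps) and `x → x - 3` (odd heaps) in the rest -/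
theorem rest_three {R : Multiset ℕ} (hR : 0 < S R) : ∃ R', Opt R R' ∧ S R' + 2 = S R ∧
    A R' % 2 = (A R + 1) % 2 ∧ B R' % 2 = (B R + 1) % 2 := by
  obtain ⟨x, hx, h1⟩ := exists_pos hR
  obtain ⟨T, rfl⟩ := Multiset.exists_cons_of_mem hx
  have hux := u_cases x
  by_cases hx2 : x % 2 = 0
  · obtain ⟨y, rfl⟩ : ∃ y, x = y + 1 := ⟨x - 1, by omega⟩
    have huy := u_cases y
    refine ⟨_, opt1, ?_, ?_, ?_⟩ <;> simp only [S_cons, A_cons, B_cons] <;> omega
  · obtain ⟨y, rfl⟩ : ∃ y, x = y + 0 + 3 := ⟨x - 3, by omega⟩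
    have huy := u_cases y
    have hu0 : u 0 = 0 := by decide
    refine ⟨_, opt3 (a := y) (b := 0), ?_, ?_, ?_⟩ <;>
      simp only [S_cons, A_cons, B_cons] <;> omega

theorem ex_dom {M : ℕ} {R : Multiset ℕ} (h : ¬ PP (M ::ₘ R)) (hM : 8 ≤ M) (hd : S R < u M) :
    ∃ G', Opt (M ::ₘ R) G' ∧ PP G' := by
  have huM := u_cases M
  have hm := S_mod R
  have hmG := S_mod (M ::ₘ R)
  have hmu := u_mod M
  have hu : u 0 = 0 ∧ u 1 = 0 ∧ u 2 = 2 ∧ u 3 = 2 ∧ u 4 = 0 ∧ u 5 = 0 ∧ u 6 = 2 ∧ u 7 = 2 := by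
    decide
  by_cases hA : A (M ::ₘ R) % 2 = 0
  · by_cases hB : B (M ::ₘ R) % 2 = 0
    · -- nim 0
      have hδ : (u M - S R) % 4 = 0 := by simp only [S_cons, A_cons, B_cons] at *; omega
      by_cases h1 : S R + 8 + 4 * (M % 2) ≤ u M
      · obtain ⟨N, rfl⟩ : ∃ N, M = N + 2 := ⟨M - 2, by omega⟩
        have huN := u_cases N
        refine ⟨_, opt2, PP_of_dom (by omega) ?_ ?_ (by omega)⟩ <;>
          simp only [A_cons, B_cons] at * <;> omega
      · by_cases hR : 0 < S R
        · have h2 : u M = S R + 4 + 4 * (M % 2) := by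
            by_contra h2
            have h3 : M % 2 = 1 ∧ u M = S R + 4 := by omega
            exact h (Or.inr (Or.inr (Or.inl ⟨hA, hB, M, by simp, h3.1, hM,
              by simp only [S_cons]; omega, by simp only [S_cons]; omega⟩)))
          obtain ⟨R', ho, g1, g2, g3⟩ := rest_two hR
          refine ⟨_, opt_rest ho, PP_of_dom hM ?_ ?_ (by omega)⟩ <;>
            simp only [A_cons, B_cons] at * <;> omega
        · have hM' : M = 8 ∨ M = 9 ∨ M = 13 := by omega
          rcases hM' with rfl | rfl | rfl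
          · refine ⟨_, opt3 (a := 5) (b := 0), Or.inl ⟨?_, ?_, ?_⟩⟩ <;>
              simp only [S_cons, A_cons, B_cons] at * <;> omega
          · refine ⟨_, opt3 (a := 5) (b := 1), Or.inl ⟨?_, ?_, ?_⟩⟩ <;>
              simp only [S_cons, A_cons, B_cons] at * <;> omega
          · refine ⟨_, opt3 (a := 5) (b := 5), Or.inl ⟨?_, ?_, ?_⟩⟩ <;>
              simp only [S_cons, A_cons, B_cons] at * <;> omega
    · -- nim 2
      have hδ : (u M - S R) % 4 = 2 := by simp only [S_cons, A_cons, B_cons] at *; omega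
      have h1 : u M < S R + 6 + 4 * (M % 2) := by
        by_contra h1
        exact h (PP_of_dom hM hA (by omega) (by omega))
      by_cases h2 : u M = S R + 2
      · obtain ⟨N, rfl⟩ : ∃ N, M = N + 2 := ⟨M - 2, by omega⟩
        have huN := u_cases N
        refine ⟨_, opt2, PP_of_bal ?_ ?_ (by omega) (by omega)⟩ <;>
          simp only [A_cons, B_cons] at * <;> omega
      · have h3 : u M = S R + 6 ∧ M % 2 = 1 := by omega
        by_cases hR : 0 < S R
        · obtain ⟨N, rfl⟩ : ∃ N, M = N + 2 := ⟨M - 2, by omega⟩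
          have huN := u_cases N
          refine ⟨_, opt2, Or.inr (Or.inr (Or.inl ⟨?_, ?_, N, by simp, by omega, by omega, ?_, ?_⟩))⟩
          all_goals simp only [S_cons, A_cons, B_cons] at *
          all_goals omega
        · have hM' : M = 11 := by omega
          subst hM'
          refine ⟨_, opt3 (a := 4) (b := 4), Or.inl ⟨?_, ?_, ?_⟩⟩ <;>
            simp only [S_cons, A_cons, B_cons] at * <;> omega
  · by_cases hB : B (M ::ₘ R) % 2 = 0
    · -- nim 1
      have hδ : (u M - S R) % 4 = 0 := by simp only [S_cons, A_cons, B_cons] at *; omega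
      by_cases hR : 0 < S R
      · by_cases h1 : S R + 4 + 4 * (M % 2) ≤ u M
        · obtain ⟨R', ho, g1, g2, g3⟩ := rest_three hR
          refine ⟨_, opt_rest ho, PP_of_dom hM ?_ ?_ (by omega)⟩ <;>
            simp only [A_cons, B_cons] at * <;> omega
        · have h2 : u M = S R + 4 ∧ M % 2 = 1 := by omega
          obtain ⟨N, rfl⟩ : ∃ N, M = 3 + N + 3 := ⟨M - 6, by omega⟩
          have huN := u_cases N
          refine ⟨_, opt3 (a := 3) (b := N), Or.inr (Or.inl ⟨?_, ?_, ?_, ?_⟩)⟩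
          · simp only [S_cons] at *; omega
          · simp only [A_cons] at *; omega
          · simp only [B_cons] at *; omega
          · intro y hy
            simp only [Multiset.mem_cons] at hy
            rcases hy with rfl | rfl | hy
            · simp only [S_cons] at *; omega
            · simp only [S_cons] at *; omega
            · have := le_S hy
              simp only [S_cons] at *; omega
      · have hsplit : ∀ a b, M = a + b + 3 → u a = u b → 0 < u a → (a + b) % 2 = (M + 1) % 2 →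
            (a / 2 + b / 2 + B R) % 2 = 0 → ∃ G', Opt (M ::ₘ R) G' ∧ PP G' := by
          intro a b hab h1 h2 h3 h4
          subst hab
          refine ⟨_, opt3, Or.inr (Or.inl ⟨?_, ?_, ?_, ?_⟩)⟩
          · simp only [S_cons]; omega
          · simp only [A_cons] at *; omega
          · simp only [B_cons] at *; omega
          · intro y hy
            simp only [Multiset.mem_cons] at hy
            rcases hy with rfl | rfl | hy
            · simp only [S_cons] at *; omega
            · simp only [S_cons] at *; omega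
            · have := le_S hy
              simp only [S_cons] at *; omega
        simp only [S_cons, A_cons, B_cons] at *
        by_cases hM2 : M % 2 = 0
        · by_cases h12 : M = 12
          · exact hsplit 6 3 (by omega) (by omega) (by omega) (by omega) (by omega)
          · have e1 := u_cases (M / 2 - 2)
            have e2 := u_cases (M / 2 - 1)
            exact hsplit (M / 2 - 2) (M / 2 - 1) (by omega) (by omega) (by omega) (by omega)
              (by omega)
        · by_cases h13 : M = 13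
          · exact hsplit 3 7 (by omega) (by omega) (by omega) (by omega) (by omega)
          · have e1 := u_cases ((M - 3) / 2)
            exact hsplit ((M - 3) / 2) ((M - 3) / 2) (by omega) (by omega) (by omega) (by omega)
              (by omega)
    · -- nim 3
      have hδ : (u M - S R) % 4 = 2 := by simp only [S_cons, A_cons, B_cons] at *; omega
      by_cases hM2 : M % 2 = 1
      · by_cases h1 : S R + 6 ≤ u M
        · obtain ⟨N, rfl⟩ : ∃ N, M = N + 1 := ⟨M - 1, by omega⟩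
          have huN := u_cases N
          refine ⟨_, opt1, PP_of_dom (by omega) ?_ ?_ (by omega)⟩ <;>
            simp only [A_cons, B_cons] at * <;> omega
        · obtain ⟨N, rfl⟩ : ∃ N, M = 0 + N + 3 := ⟨M - 3, by omega⟩
          have huN := u_cases N
          refine ⟨_, opt3 (a := 0) (b := N), ?_⟩
          rw [Multiset.cons_swap]
          refine PP_of_bal ?_ ?_ ?_ ?_ <;> simp only [S_cons, A_cons, B_cons] at * <;> omega
      · by_cases h1 : S R + 6 ≤ u M
        · obtain ⟨x, hx, hx2⟩ := exists_odd (R := R) (by simp only [A_cons] at *; omega)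
          obtain ⟨T, rfl⟩ := Multiset.exists_cons_of_mem hx
          obtain ⟨y, rfl⟩ : ∃ y, x = y + 1 := ⟨x - 1, by omega⟩
          have hux := u_cases (y + 1)
          have huy := u_cases y
          refine ⟨_, opt_rest (opt1 (y := y)), PP_of_dom hM ?_ ?_ ?_⟩ <;>
            simp only [S_cons, A_cons, B_cons] at * <;> omega
        · obtain ⟨N, rfl⟩ : ∃ N, M = N + 1 := ⟨M - 1, by omega⟩
          have huN := u_cases N
          refine ⟨_, opt1, PP_of_bal ?_ ?_ (by omega) (by omega)⟩ <;>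
            simp only [A_cons, B_cons] at * <;> omega

theorem exists_PP {G : Multiset ℕ} (h : ¬ PP G) {x : ℕ} (hx : x ∈ G) (hx0 : 0 < x) :
    ∃ G', Opt G G' ∧ PP G' := by
  by_cases hS : S G = 0
  · exact ex_zero h hS hx hx0
  · by_cases hb : Bal G
    · exact ex_bal h (by omega) hb
    · unfold Bal at hb
      push Not at hb
      obtain ⟨M, hM, h1⟩ := hb
      obtain ⟨R, rfl⟩ := Multiset.exists_cons_of_mem hM
      simp only [S_cons] at h1
      by_cases h8 : M < 8
      · exact ex_small h8 (by omega)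
      · exact ex_dom h (by omega) (by omega)

theorem not_PP_zero {G : Multiset ℕ} (h : ∀ x ∈ G, x = 0) : ¬ PP G := by
  have h1 : G = Multiset.replicate (Multiset.card G) 0 := Multiset.eq_replicate_card.2 h
  have hS : S G = 0 := by
    unfold S
    rw [h1]
    simp [u]
  have hA : A G = 0 := by
    unfold A
    rw [h1]
    simp
  intro hP
  rcases PP_pos hP with h2 | h2 <;> omega

end Pool.Agent.V11231.MD
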