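import Pool.Agent.V11231.MD.Game
import Mathlib.Combinatorics.SimpleGraph.Hasse
import Mathlib.Combinatorics.SimpleGraph.Circulant

/-!
# The misère domination game on paths and cycles
-/

set_option autoImplicit false

namespace Pool.Agent.V11231.MD

section

variable {n : ℕ} {G : SimpleGraph (Fin n)} {lo hi : ℕ}

/-- In the window between `lo` and `hi`, the graph looks like a path. -/
def Near (G : SimpleGraph (Fin n)) (lo hi : ℕ) : Prop :=
  ∀ v x : Fin n, lo ≤ x.val → x.val < hi → ((x = v ∨ G.Adj v x) ↔ (x.val ≤ v.val + 1 ∧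
    v.val ≤ x.val + 1))

/-- `L` is a list of intervals `(s, k)`, the vertices in them are those which are not dominated by
`C`. -/
structure Rep (G : SimpleGraph (Fin n)) (lo hi : ℕ) (C : Set (Fin n)) (L : List (ℕ × ℕ)) : Prop where
  ins : ∀ p ∈ L, 0 < p.2 → lo ≤ p.1 ∧ p.1 + p.2 ≤ hi ∧ (0 < p.1 ∨ p.1 + p.2 < n)
  und : ∀ x : Fin n, (∀ c ∈ C, ¬ (x = c ∨ G.Adj c x)) ↔ ∃ p ∈ L, p.1 ≤ x.val ∧ x.val < p.1 + p.2
  sep : L.Pairwise fun p q => 0 < p.2 → 0 < q.2 → p.1 + p.2 + 2 ≤ q.1 ∨ q.1 + q.2 + 2 ≤ p.1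

theorem Rep.perm {C : Set (Fin n)} {L L' : List (ℕ × ℕ)} (h : Rep G lo hi C L) (hp : L.Perm L') :
    Rep G lo hi C L' := by
  refine ⟨fun p hp' => h.ins p (hp.mem_iff.2 hp'), fun x => ?_, ?_⟩
  · rw [h.und x]
    simp only [hp.mem_iff]
  · refine (hp.pairwise_iff ?_).1 h.sep
    intro a b hab h1 h2
    exact (hab h2 h1).symm

theorem Rep.step (hnear : Near G lo hi) {C : Set (Fin n)} {p : ℕ × ℕ} {L : List (ℕ × ℕ)}
    (h : Rep G lo hi C (p :: L)) (v : Fin n) (h0 : 0 < p.2) (h1 : p.1 ≤ v.val + 1)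
    (h2 : v.val ≤ p.1 + p.2) :
    Rep G lo hi (insert v C)
      ((p.1, v.val - 1 - p.1) :: (v.val + 2, p.1 + p.2 - (v.val + 2)) :: L) := by
  have hs := List.pairwise_cons.1 h.sep
  have hi1 := h.ins p (by simp) h0
  refine ⟨?_, ?_, ?_⟩
  · intro q hq h3
    simp only [List.mem_cons] at hq
    rcases hq with rfl | rfl | hq
    · simp only at h3 ⊢
      have := v.2
      omega
    · simp only at h3 ⊢
      omega
    · exact h.ins q (by simp [hq]) h3
  · intro x
    have hund := h.und x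
    constructor
    · intro hx
      obtain ⟨q, hq, h3, h4⟩ := hund.1 fun c hc => hx c (by simp [hc])
      have hxv := hx v (by simp)
      have hiq := h.ins q hq (by omega)
      rw [hnear v x (by omega) (by omega)] at hxv
      simp only [List.mem_cons] at hq
      rcases hq with rfl | hq
      · by_cases h5 : x.val + 1 < v.val
        · refine ⟨(q.1, v.val - 1 - q.1), by simp, h3, ?_⟩
          simp only
          omega
        · refine ⟨(v.val + 2, q.1 + q.2 - (v.val + 2)), by simp, ?_, ?_⟩ <;> simp only <;> omega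
      · exact ⟨q, by simp [hq], h3, h4⟩
    · rintro ⟨q, hq, h3, h4⟩
      have key : ∃ q ∈ p :: L, q.1 ≤ x.val ∧ x.val < q.1 + q.2 := by
        simp only [List.mem_cons] at hq
        rcases hq with rfl | rfl | hq
        · exact ⟨p, by simp, by simp only at *; omega, by simp only at *; omega⟩
        · exact ⟨p, by simp, by simp only at *; omega, by simp only at *; omega⟩
        · exact ⟨q, by simp [hq], h3, h4⟩
      intro c hc
      rcases Set.mem_insert_iff.1 hc with rfl | hc
      · obtain ⟨q', hq', h3', h4'⟩ := key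
        have hiq := h.ins q' hq' (by omega)
        rw [hnear c x (by omega) (by omega)]
        simp only [List.mem_cons] at hq
        rcases hq with rfl | rfl | hq
        · simp only at *; omega
        · simp only at *; omega
        · have := hs.1 q hq h0 (by omega)
          omega
      · exact hund.2 key c hc
  · rw [List.pairwise_cons, List.pairwise_cons]
    refine ⟨?_, ?_, hs.2⟩
    · intro q hq
      simp only [List.mem_cons] at hq
      rcases hq with rfl | hq
      · simp only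
        omega
      · have := hs.1 q hq h0
        simp only
        intro h3 h4
        have := this h4
        omega
    · intro q hq
      have := hs.1 q hq h0
      simp only
      intro h3 h4
      have := this h4
      omega

theorem Rep.legal (hnear : Near G lo hi) (hn : hi ≤ n) {C : Set (Fin n)} {L : List (ℕ × ℕ)}
    (h : Rep G lo hi C L) (v : Fin n) :
    Legal G C v ↔ ∃ p ∈ L, 0 < p.2 ∧ p.1 ≤ v.val + 1 ∧ v.val ≤ p.1 + p.2 := by
  constructor
  · rintro ⟨w, h1, h2⟩
    obtain ⟨p, hp, h3, h4⟩ := (h.und w).1 h2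
    have hip := h.ins p hp (by omega)
    rw [hnear v w (by omega) (by omega)] at h1
    exact ⟨p, hp, by omega, by omega, by omega⟩
  · rintro ⟨p, hp, h0, h1, h2⟩
    have hip := h.ins p hp (by omega)
    obtain ⟨w, hw1, hw2, hw3, hw4⟩ : ∃ w, p.1 ≤ w ∧ w < p.1 + p.2 ∧ w ≤ v.val + 1 ∧
        v.val ≤ w + 1 := by
      by_cases h3 : p.1 ≤ v.val - 1
      · exact ⟨v.val - 1, by omega, by omega, by omega, by omega⟩
      · exact ⟨p.1, by omega, by omega, by omega, by omega⟩
    refine ⟨⟨w, by omega⟩, ?_, (h.und _).2 ⟨p, hp, hw1, hw2⟩⟩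
    rw [hnear v ⟨w, by omega⟩ (by simp only; omega) (by simp only; omega)]
    exact ⟨hw3, hw4⟩

/-- The options, with zero heaps. -/
theorem PP_move {k a b : ℕ} {R : Multiset ℕ} (h : PP (k ::ₘ R)) (hk : 0 < k)
    (hab : (a + b + 3 = k) ∨ (a = 0 ∧ b = k - 2) ∨ (a = k - 2 ∧ b = 0) ∨ (a = 0 ∧ b = k - 1) ∨
      (a = k - 1 ∧ b = 0)) : ¬ PP (a ::ₘ b ::ₘ R) := by
  have h1 : ¬ PP ((k - 1) ::ₘ R) := PP_opt h (by
    obtain ⟨k, rfl⟩ : ∃ m, k = m + 1 := ⟨k - 1, by omega⟩
    exact opt1)
  have h2 : ¬ PP ((k - 2) ::ₘ R) := PP_opt h (by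
    by_cases hk1 : k = 1
    · subst hk1; exact opt1
    · obtain ⟨k, rfl⟩ : ∃ m, k = m + 2 := ⟨k - 2, by omega⟩
      exact opt2)
  rcases hab with hab | ⟨rfl, rfl⟩ | ⟨rfl, rfl⟩ | ⟨rfl, rfl⟩ | ⟨rfl, rfl⟩
  · subst hab
    exact PP_opt h opt3
  · rwa [PP_zero_cons]
  · rwa [Multiset.cons_swap, PP_zero_cons]
  · rwa [PP_zero_cons]
  · rwa [Multiset.cons_swap, PP_zero_cons]

theorem main (hnear : Near G lo hi) (hn : hi ≤ n) : ∀ (m : ℕ) (C : Set (Fin n))
    (L : List (ℕ × ℕ)), (L.map Prod.snd).sum ≤ m → Rep G lo hi C L →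
    (PP (L.map Prod.snd : List ℕ) → Loses (DomMove G) C) ∧
    (¬ PP (L.map Prod.snd : List ℕ) → MisereWins (DomMove G) C) := by
  intro m
  induction m using Nat.strong_induction_on with
  | _ m ih =>
    intro C L hm hR
    -- the induction hypothesis
    have key : ∀ (p : ℕ × ℕ) (L' : List (ℕ × ℕ)) (v : Fin n), L.Perm (p :: L') → 0 < p.2 →
        p.1 ≤ v.val + 1 → v.val ≤ p.1 + p.2 →
        (PP ((v.val - 1 - p.1) ::ₘ (p.1 + p.2 - (v.val + 2)) ::ₘ (L'.map Prod.snd : List ℕ)) →
          Loses (DomMove G) (insert v C)) ∧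
        (¬ PP ((v.val - 1 - p.1) ::ₘ (p.1 + p.2 - (v.val + 2)) ::ₘ (L'.map Prod.snd : List ℕ)) →
          MisereWins (DomMove G) (insert v C)) := by
      intro p L' v hp h0 h1 h2
      have hR' := (hR.perm hp).step hnear v h0 h1 h2
      have hsum : (L.map Prod.snd).sum = p.2 + (L'.map Prod.snd).sum := by
        rw [(hp.map Prod.snd).sum_eq]; simp
      exact ih ((v.val - 1 - p.1) + ((p.1 + p.2 - (v.val + 2)) + (L'.map Prod.snd).sum)) (by omega)
        (insert v C) _ (by simp) hR'
    constructor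
    · intro hP
      constructor
      · have hpos : ∃ p ∈ L, 0 < p.2 := by
          by_contra hne
          push Not at hne
          refine not_PP_zero ?_ hP
          intro x hx
          simp only [Multiset.mem_coe, List.mem_map] at hx
          obtain ⟨p, hp, rfl⟩ := hx
          have := hne p hp
          omega
        obtain ⟨p, hp, h0⟩ := hpos
        have hip := hR.ins p hp h0
        exact ⟨_, ⟨p.1, by omega⟩, (hR.legal hnear hn _).2 ⟨p, hp, h0, by simp, by simp⟩, rfl⟩
      · rintro _ ⟨v, hv, rfl⟩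
        obtain ⟨p, hp, h0, h1, h2⟩ := (hR.legal hnear hn v).1 hv
        obtain ⟨L', hL'⟩ : ∃ L', L.Perm (p :: L') := ⟨_, List.perm_cons_erase hp⟩
        refine (key p L' v hL' h0 h1 h2).2 ?_
        have hP' : PP (p.2 ::ₘ (L'.map Prod.snd : List ℕ)) := by
          have h3 : (L.map Prod.snd).Perm (p.2 :: L'.map Prod.snd) := hL'.map Prod.snd
          rwa [Multiset.coe_eq_coe.2 h3] at hP
        refine PP_move hP' h0 ?_
        omega
    · intro hP
      by_cases hpos : ∃ p ∈ L, 0 < p.2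
      · obtain ⟨p, hp, h0⟩ := hpos
        obtain ⟨G', ho, hG'⟩ := exists_PP hP (x := p.2)
          (by simp only [Multiset.mem_coe]; exact List.mem_map_of_mem hp) h0
        obtain ⟨x, R, hx, ho⟩ := ho
        have hx0 : 0 < x := by
          rcases ho with ⟨y, rfl, _⟩ | ⟨y, rfl, _⟩ | ⟨a, b, rfl, _⟩ <;> omega
        have hxL : x ∈ L.map Prod.snd := by
          rw [← Multiset.mem_coe, hx]; simp
        obtain ⟨q, hq, rfl⟩ := List.mem_map.1 hxL
        obtain ⟨L', hL'⟩ : ∃ L', L.Perm (q :: L') := ⟨_, List.perm_cons_erase hq⟩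
        have hRL : R = (L'.map Prod.snd : List ℕ) := by
          have h3 : (L.map Prod.snd).Perm (q.2 :: L'.map Prod.snd) := hL'.map Prod.snd
          rw [Multiset.coe_eq_coe.2 h3, ← Multiset.cons_coe] at hx
          exact (Multiset.cons_inj_right _).1 hx.symm
        subst hRL
        have hiq := hR.ins q hq hx0
        have fin : ∀ (v : ℕ), v < n → q.1 ≤ v + 1 → v ≤ q.1 + q.2 →
            PP ((v - 1 - q.1) ::ₘ (q.1 + q.2 - (v + 2)) ::ₘ (L'.map Prod.snd : List ℕ)) →
            MisereWins (DomMove G) C := by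
          intro v hv h1 h2 h3
          refine MisereWins.of_loses ⟨⟨v, hv⟩, (hR.legal hnear hn _).2 ⟨q, hq, hx0, h1, h2⟩, rfl⟩
            ((key q L' ⟨v, hv⟩ hL' hx0 h1 h2).1 h3)
        rcases ho with ⟨y, hy, rfl⟩ | ⟨y, hy, rfl⟩ | ⟨a, b, hab, rfl⟩
        · by_cases hq0 : 0 < q.1
          · refine fin (q.1 - 1) (by omega) (by omega) (by omega) ?_
            have e1 : q.1 - 1 - 1 - q.1 = 0 := by omega
            have e2 : q.1 + q.2 - (q.1 - 1 + 2) = y := by omega
            rw [e1, e2, PP_zero_cons]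
            exact hG'
          · refine fin (q.1 + q.2) (by omega) (by omega) (by omega) ?_
            have e1 : q.1 + q.2 - 1 - q.1 = y := by omega
            have e2 : q.1 + q.2 - (q.1 + q.2 + 2) = 0 := by omega
            rw [e1, e2, Multiset.cons_swap, PP_zero_cons]
            exact hG'
        · refine fin q.1 (by omega) (by omega) (by omega) ?_
          have e1 : q.1 - 1 - q.1 = 0 := by omega
          have e2 : q.1 + q.2 - (q.1 + 2) = y := by omega
          rw [e1, e2, PP_zero_cons]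
          exact hG'
        · refine fin (q.1 + a + 1) (by omega) (by omega) (by omega) ?_
          have e1 : q.1 + a + 1 - 1 - q.1 = a := by omega
          have e2 : q.1 + q.2 - (q.1 + a + 1 + 2) = b := by omega
          rw [e1, e2]
          exact hG'
      · refine MisereWins.stuck C ?_
        rintro _ ⟨v, hv, rfl⟩
        obtain ⟨p, hp, h0, _⟩ := (hR.legal hnear hn v).1 hv
        exact hpos ⟨p, hp, h0⟩

end

/-! ### Two heaps -/

theorem PP_pair (a b : ℕ) : PP (a ::ₘ b ::ₘ (([] : List ℕ) : Multiset ℕ)) ↔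
    ((u a + u b = 0 ∧ (a + b) % 2 = 1 ∧ (a / 2 + b / 2) % 2 = 0) ∨
    (0 < u a + u b ∧ (a + b) % 2 = 0 ∧ (a / 2 + b / 2) % 2 = 0 ∧ u a = u b) ∨
    ((a + b) % 2 = 0 ∧ (a / 2 + b / 2) % 2 = 0 ∧
      ((a % 2 = 1 ∧ 8 ≤ a ∧ u a = u b + 4 ∧ 0 < u b) ∨
        (b % 2 = 1 ∧ 8 ≤ b ∧ u b = u a + 4 ∧ 0 < u a))) ∨
    ((a + b) % 2 = 0 ∧ (a / 2 + b / 2) % 2 = 1 ∧
      ((8 ≤ a ∧ u b + 6 + 4 * (a % 2) ≤ u a) ∨ (8 ≤ b ∧ u a + 6 + 4 * (b % 2) ≤ u b)))) := by
  have hS : S (a ::ₘ b ::ₘ (([] : List ℕ) : Multiset ℕ)) = u a + u b := by simp [S]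
  have hA : A (a ::ₘ b ::ₘ (([] : List ℕ) : Multiset ℕ)) = a + b := by simp [A]
  have hB : B (a ::ₘ b ::ₘ (([] : List ℕ) : Multiset ℕ)) = a / 2 + b / 2 := by simp [B]
  have hbal : Bal (a ::ₘ b ::ₘ (([] : List ℕ) : Multiset ℕ)) ↔ u a = u b := by
    unfold Bal
    rw [hS]
    constructor
    · intro h
      have h1 := h a (by simp)
      have h2 := h b (by simp)
      omega
    · intro h y hy
      simp only [Multiset.mem_cons, Multiset.coe_nil, Multiset.notMem_zero, or_false] at hy
      rcases hy with rfl | rfl <;> omega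
  have hQ4 : Q4 (a ::ₘ b ::ₘ (([] : List ℕ) : Multiset ℕ)) ↔
      ((a % 2 = 1 ∧ 8 ≤ a ∧ u a = u b + 4 ∧ 0 < u b) ∨
        (b % 2 = 1 ∧ 8 ≤ b ∧ u b = u a + 4 ∧ 0 < u a)) := by
    unfold Q4
    rw [hS]
    constructor
    · rintro ⟨y, hy, h1, h2, h3, h4⟩
      simp only [Multiset.mem_cons, Multiset.coe_nil, Multiset.notMem_zero, or_false] at hy
      rcases hy with rfl | rfl <;> omega
    · rintro (⟨h1, h2, h3, h4⟩ | ⟨h1, h2, h3, h4⟩)
      · exact ⟨a, by simp, h1, h2, by omega, by omega⟩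
      · exact ⟨b, by simp, h1, h2, by omega, by omega⟩
  have hQ6 : Q6 (a ::ₘ b ::ₘ (([] : List ℕ) : Multiset ℕ)) ↔
      ((8 ≤ a ∧ u b + 6 + 4 * (a % 2) ≤ u a) ∨ (8 ≤ b ∧ u a + 6 + 4 * (b % 2) ≤ u b)) := by
    unfold Q6
    rw [hS]
    constructor
    · rintro ⟨y, hy, h1, h2⟩
      simp only [Multiset.mem_cons, Multiset.coe_nil, Multiset.notMem_zero, or_false] at hy
      rcases hy with rfl | rfl <;> omega
    · rintro (⟨h1, h2⟩ | ⟨h1, h2⟩)
      · exact ⟨a, by simp, h1, by omega⟩
      · exact ⟨b, by simp, h1, by omega⟩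
  unfold PP
  rw [hS, hA, hB, hbal, hQ4, hQ6]

/-- one heap -/
theorem PP_single (b : ℕ) : PP (b ::ₘ (([] : List ℕ) : Multiset ℕ)) ↔
    (b = 1 ∨ b = 5 ∨ (b % 4 = 2 ∧ 10 ≤ b)) := by
  rw [← PP_zero_cons, PP_pair]
  have h0 : u 0 = 0 := by decide
  have hb := u_cases b
  omega

/-- the pairs of heaps after the first move on a path -/
theorem exists_pair (n : ℕ) : (∃ v, v < n ∧ PP ((v - 1) ::ₘ (n - (v + 2)) ::ₘ
    (([] : List ℕ) : Multiset ℕ))) ↔
    ¬ (n = 0 ∨ n = 1 ∨ n = 2 ∨ n = 5 ∨ n = 6 ∨ (10 ≤ n ∧ n % 4 = 2)) := by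
  simp only [PP_pair]
  constructor
  · rintro ⟨v, hv, h⟩ h1
    have e1 := u_cases (v - 1)
    have e2 := u_cases (n - (v + 2))
    have e0 := u_cases 0
    omega
  · intro h
    by_cases h0 : n % 4 = 0
    · by_cases h1 : n = 4
      · subst h1; exact ⟨1, by decide⟩
      · by_cases h2 : n = 8
        · subst h2; exact ⟨6, by decide⟩
        · refine ⟨0, by omega, ?_⟩
          have e1 := u_cases (0 - 1)
          have e2 := u_cases (n - (0 + 2))
          omega
    · by_cases h1 : n = 3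
      · subst h1; exact ⟨0, by decide⟩
      · by_cases h2 : n = 7
        · subst h2; exact ⟨0, by decide⟩
        · by_cases h3 : n = 11
          · subst h3; exact ⟨3, by decide⟩
          · by_cases h4 : n = 13
            · subst h4; exact ⟨4, by decide⟩
            · obtain ⟨a, rfl⟩ : ∃ a, n = 2 * a + 3 := ⟨(n - 3) / 2, by omega⟩
              refine ⟨a + 1, by omega, ?_⟩
              have e1 : a + 1 - 1 = a := by omega
              have e2 : 2 * a + 3 - (a + 1 + 2) = a := by omega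
              have e3 := u_cases a
              rw [e1, e2]
              exact Or.inr (Or.inl ⟨by omega, by omega, by omega, rfl⟩)

/-- after the first move on a path -/
theorem rep_path {n : ℕ} (v : Fin n) : Rep (SimpleGraph.pathGraph n) 0 n (insert v ∅)
    [(0, v.val - 1), (v.val + 2, n - (v.val + 2))] := by
  refine ⟨?_, ?_, ?_⟩
  · intro p hp h0
    simp only [List.mem_cons, List.not_mem_nil, or_false] at hp
    have := v.2
    rcases hp with rfl | rfl <;> simp only at * <;> omega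
  · intro x
    simp only [Set.mem_insert_iff, Set.mem_empty_iff_false, or_false, forall_eq,
      SimpleGraph.pathGraph_adj, List.mem_cons, List.not_mem_nil, exists_eq_or_imp,
      exists_eq_left]
    rw [Fin.ext_iff]
    have := v.2
    have := x.2
    omega
  · simp only [List.pairwise_cons, List.mem_cons, List.not_mem_nil, or_false, forall_eq,
      false_imp_iff, implies_true, List.Pairwise.nil, and_true]
    omega

theorem near_path {n : ℕ} : Near (SimpleGraph.pathGraph n) 0 n := by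
  intro v x _ _
  rw [SimpleGraph.pathGraph_adj, Fin.ext_iff]
  omega

theorem legal_empty {V : Type} {G : SimpleGraph V} (v : V) : Legal G ∅ v :=
  ⟨v, Or.inl rfl, by simp⟩

theorem aliceWins_iff {V : Type} {G : SimpleGraph V} :
    AliceWins G ↔ IsEmpty V ∨ ∃ v, Loses (DomMove G) {v} := by
  constructor
  · intro h
    unfold AliceWins at h
    rcases h with h | ⟨_, b, ⟨v, hv, rfl⟩, h2, h3⟩
    · refine Or.inl ⟨fun v => ?_⟩
      rename_i h1
      exact h1 _ ⟨v, legal_empty v, rfl⟩
    · refine Or.inr ⟨v, ?_⟩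
      rw [← insert_empty_eq]
      exact ⟨h2, h3⟩
  · rintro (h | ⟨v, h⟩)
    · refine MisereWins.stuck _ ?_
      rintro _ ⟨v, _⟩
      exact h.elim v
    · refine MisereWins.of_loses (b := insert v ∅) ⟨v, legal_empty v, rfl⟩ ?_
      rw [insert_empty_eq]
      exact h

theorem loses_iff_of_main {α : Type} {mv : α → α → Prop} {C : α} {P : Prop}
    (h : (P → Loses mv C) ∧ (¬ P → MisereWins mv C)) : Loses mv C ↔ P := by
  constructor
  · intro h1
    by_contra h2
    exact (h.2 h2).not_loses h1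
  · exact h.1

theorem aliceWins_path (n : ℕ) : AliceWins (SimpleGraph.pathGraph n) ↔
    ¬ (n = 1 ∨ n = 2 ∨ n = 5 ∨ n = 6 ∨ (10 ≤ n ∧ n % 4 = 2)) := by
  have h1 : ∀ v : Fin n, Loses (DomMove (SimpleGraph.pathGraph n)) {v} ↔
      PP ((v.val - 1) ::ₘ (n - (v.val + 2)) ::ₘ (([] : List ℕ) : Multiset ℕ)) := by
    intro v
    have := main near_path le_rfl _ _ _ le_rfl (rep_path v)
    rw [insert_empty_eq] at this
    exact loses_iff_of_main this
  have h2 := exists_pair n
  rw [aliceWins_iff]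
  constructor
  · rintro (h | ⟨v, h⟩)
    · have : n = 0 := by
        by_contra h0
        exact h.elim ⟨0, by omega⟩
      omega
    · have := h2.1 ⟨v.val, v.2, (h1 v).1 h⟩
      omega
  · intro h
    by_cases h0 : n = 0
    · left
      subst h0
      exact Fin.isEmpty'
    · obtain ⟨v, hv, h3⟩ := h2.2 (by omega)
      exact Or.inr ⟨⟨v, hv⟩, (h1 ⟨v, hv⟩).2 h3⟩

/-! ### Cycles -/

theorem cycle_adj {n : ℕ} (hn : 3 ≤ n) (u v : Fin n) : (SimpleGraph.cycleGraph n).Adj u v ↔
    (v.val = u.val + 1 ∨ u.val = v.val + 1 ∨ (u.val = 0 ∧ v.val = n - 1) ∨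
      (v.val = 0 ∧ u.val = n - 1)) := by
  rw [SimpleGraph.cycleGraph_adj']
  have hu := u.2
  have hv := v.2
  rw [Fin.sub_def, Fin.sub_def]
  simp only
  constructor
  · rintro (h | h)
    · by_cases h1 : n - v.val + u.val < n
      · rw [Nat.mod_eq_of_lt h1] at h
        omega
      · have : n - v.val + u.val = (u.val - v.val) + n := by omega
        rw [this, Nat.add_mod_right, Nat.mod_eq_of_lt (by omega)] at h
        omega
    · by_cases h1 : n - u.val + v.val < n
      · rw [Nat.mod_eq_of_lt h1] at h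
        omega
      · have : n - u.val + v.val = (v.val - u.val) + n := by omega
        rw [this, Nat.add_mod_right, Nat.mod_eq_of_lt (by omega)] at h
        omega
  · rintro (h | h | h | h)
    · right
      have : n - u.val + v.val = 1 + n := by omega
      rw [this, Nat.add_mod_right, Nat.mod_eq_of_lt (by omega)]
    · left
      have : n - v.val + u.val = 1 + n := by omega
      rw [this, Nat.add_mod_right, Nat.mod_eq_of_lt (by omega)]
    · left
      have : n - v.val + u.val = 1 := by omega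
      rw [this, Nat.mod_eq_of_lt (by omega)]
    · right
      have : n - u.val + v.val = 1 := by omega
      rw [this, Nat.mod_eq_of_lt (by omega)]

theorem rep_cycle {n : ℕ} (hn : 3 ≤ n) : Rep (SimpleGraph.cycleGraph n) 1 (n - 1)
    (insert ⟨0, by omega⟩ ∅) [(2, n - 3)] := by
  refine ⟨?_, ?_, ?_⟩
  · intro p hp h0
    simp only [List.mem_cons, List.not_mem_nil, or_false] at hp
    rcases hp with rfl
    simp only at *
    omega
  · intro x
    simp only [Set.mem_insert_iff, Set.mem_empty_iff_false, or_false, forall_eq,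
      cycle_adj hn, List.mem_cons, List.not_mem_nil, exists_eq_left]
    simp only [Fin.ext_iff, true_and]
    have := x.2
    omega
  · simp

theorem near_cycle {n : ℕ} (hn : 3 ≤ n) : Near (SimpleGraph.cycleGraph n) 1 (n - 1) := by
  intro v x _ _
  rw [cycle_adj hn, Fin.ext_iff]
  have := v.2
  have := x.2
  omega

/-- the rotations -/
theorem rotate {n : ℕ} (v w : Fin n) : ∃ φ : SimpleGraph.cycleGraph n ≃g SimpleGraph.cycleGraph n,
    φ v = w := by
  cases n with
  | zero => exact v.elim0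
  | succ n =>
    refine ⟨⟨Equiv.addRight (w - v), ?_⟩, ?_⟩
    · intro a b
      rw [SimpleGraph.cycleGraph_eq_circulantGraph]
      exact SimpleGraph.circulantGraph_adj_translate
    · show v + (w - v) = w
      abel

theorem loses_image {V W : Type} {G : SimpleGraph V} {H : SimpleGraph W} (φ : G ≃g H) {C : Set V}
    (h : Loses (DomMove G) C) : Loses (DomMove H) (φ '' C) := by
  obtain ⟨⟨_, v, hv, rfl⟩, h2⟩ := h
  refine ⟨⟨_, φ v, (image_legal φ).2 hv, rfl⟩, ?_⟩
  rintro _ ⟨v, hv, rfl⟩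
  obtain ⟨v, rfl⟩ := φ.surjective v
  rw [← Set.image_insert_eq]
  exact wins_image φ (h2 _ ⟨v, (image_legal φ).1 hv, rfl⟩)

theorem aliceWins_cycle {n : ℕ} (hn : 3 ≤ n) : AliceWins (SimpleGraph.cycleGraph n) ↔
    (n = 4 ∨ n = 8 ∨ (13 ≤ n ∧ n % 4 = 1)) := by
  have h1 : Loses (DomMove (SimpleGraph.cycleGraph n)) {(⟨0, by omega⟩ : Fin n)} ↔
      PP ((n - 3) ::ₘ (([] : List ℕ) : Multiset ℕ)) := by
    have := main (near_cycle hn) (by omega) _ _ _ le_rfl (rep_cycle hn)
    rw [insert_empty_eq] at this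
    exact loses_iff_of_main this
  rw [PP_single] at h1
  rw [aliceWins_iff]
  constructor
  · rintro (h | ⟨v, h⟩)
    · exact (h.elim ⟨0, by omega⟩)
    · obtain ⟨φ, hφ⟩ := rotate v (⟨0, by omega⟩ : Fin n)
      have := loses_image φ h
      rw [Set.image_singleton, hφ] at this
      have := h1.1 this
      omega
  · intro h
    exact Or.inr ⟨_, h1.2 (by omega)⟩

end Pool.Agent.V11231.MD
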